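import Pool.Agent.Helper446.Comp

/-! A highly computable bipartite graph has a computable proper colouring with four colours. -/

set_option autoImplicit false

namespace Pool.Agent.TH744.Gas

open Pool.Agent.Helper446

/-- breadth-first layers -/
def L (nb : ℕ → List ℕ) (n : ℕ) : List ℕ :=
  Nat.rec (motive := fun _ => List ℕ) [] (fun i l => l.foldl (fun acc x => acc ++ nb x) (i :: l)) n

theorem L_succ (nb : ℕ → List ℕ) (n : ℕ) :
    L nb (n + 1) = (L nb n).foldl (fun acc x => acc ++ nb x) (n :: L nb n) := rfl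

theorem mem_foldl (nb : ℕ → List ℕ) (l : List ℕ) (a : List ℕ) (y : ℕ) :
    y ∈ l.foldl (fun acc x => acc ++ nb x) a ↔ y ∈ a ∨ ∃ x ∈ l, y ∈ nb x := by
  induction l generalizing a with
  | nil => simp
  | cons b l ih =>
    rw [List.foldl_cons, ih]
    simp only [List.mem_append, List.mem_cons]
    constructor
    · rintro ((h | h) | ⟨x, h1, h2⟩)
      · exact Or.inl h
      · exact Or.inr ⟨b, Or.inl rfl, h⟩
      · exact Or.inr ⟨x, Or.inr h1, h2⟩
    · rintro (h | ⟨x, rfl | h1, h2⟩)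
      · exact Or.inl (Or.inl h)
      · exact Or.inl (Or.inr h2)
      · exact Or.inr ⟨x, h1, h2⟩

theorem mem_L_succ (nb : ℕ → List ℕ) (n y : ℕ) :
    y ∈ L nb (n + 1) ↔ y = n ∨ y ∈ L nb n ∨ ∃ x ∈ L nb n, y ∈ nb x := by
  rw [L_succ, mem_foldl, List.mem_cons, or_assoc]

theorem L_comp {nb : ℕ → List ℕ} (hnb : Computable nb) : Computable (L nb) := by
  have h1 : Computable₂ fun (_ : ℕ) (p : ℕ × List ℕ) =>
      p.2.foldl (fun acc x => acc ++ nb x) (p.1 :: p.2) := by
    have h2 : Computable₂ fun (_ : ℕ × ℕ × List ℕ) (q : List ℕ × ℕ) => q.1 ++ nb q.2 := by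
      have h3 : Computable fun z : (ℕ × ℕ × List ℕ) × (List ℕ × ℕ) => nb z.2.2 :=
        hnb.comp (g := fun z : (ℕ × ℕ × List ℕ) × (List ℕ × ℕ) => z.2.2) (by fun_prop)
      exact Computable.list_append.comp (by fun_prop) h3
    exact (RE.list_foldl (f := fun z : ℕ × ℕ × List ℕ => z.2.2)
      (g := fun z : ℕ × ℕ × List ℕ => z.2.1 :: z.2.2) (by fun_prop) (by fun_prop) h2)
  exact (Computable.nat_rec Computable.id (Computable.const []) h1).of_eq fun a => rfl

/-- finite 2-colourings by numbers -/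
theorem exists_bits (C : ℕ → Bool) (N : ℕ) : ∃ m : ℕ, ∀ x < N, m.testBit x = C x := by
  induction N with
  | zero => exact ⟨0, fun x hx => absurd hx (Nat.not_lt_zero x)⟩
  | succ N ih =>
    obtain ⟨m, hm⟩ := ih
    refine ⟨m % 2 ^ N + (C N).toNat * 2 ^ N, fun x hx => ?_⟩
    have h1 : m % 2 ^ N < 2 ^ N := Nat.mod_lt _ (by positivity)
    rw [Nat.add_comm, Nat.mul_comm]
    rw [Nat.testBit_two_pow_mul_add _ h1]
    rcases Nat.lt_succ_iff_lt_or_eq.1 hx with h | rfl
    · rw [if_pos h, Nat.testBit_mod_two_pow, decide_eq_true h, Bool.true_and, hm x h]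
    · rw [if_neg (lt_irrefl _), Nat.sub_self]
      cases C x <;> rfl

theorem testBit_comp {α : Type} [Primcodable α] {f g : α → ℕ} (hf : Computable f)
    (hg : Computable g) : Computable fun a => (f a).testBit (g a) := by
  have h1 : Primrec fun p : ℕ × ℕ => p.1 / 2 ^ p.2 % 2 == 1 := by
    have hp : Primrec fun p : ℕ × ℕ => 2 ^ p.2 := by
      have h0 : Primrec₂ (fun a b : ℕ => a ^ b) := by
        exact Primrec₂.unpaired'.1 Nat.Primrec.pow
      exact h0.comp (Primrec.const 2) Primrec.snd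
    have hd : Primrec fun p : ℕ × ℕ => p.1 / 2 ^ p.2 := Primrec.nat_div.comp Primrec.fst hp
    exact Primrec.beq.comp (Primrec.nat_mod.comp hd (Primrec.const 2)) (Primrec.const 1)
  refine (h1.to_comp.comp (hf.pair hg)).of_eq fun a => ?_
  show ((f a) / 2 ^ (g a) % 2 == 1) = _
  rw [Nat.testBit_eq_decide_div_mod_eq]
  rcases Nat.mod_two_eq_zero_or_one (f a / 2 ^ g a) with h | h <;> simp [h]

theorem four_colours (Adj : ℕ → ℕ → Prop) {nb : ℕ → List ℕ} (hnb : Computable nb)
    (hadj : ∀ x y, y ∈ nb x ↔ Adj x y) (hsymm : ∀ x y, Adj x y → Adj y x)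
    (C : ℕ → Bool) (hC : ∀ x y, Adj x y → C x ≠ C y) :
    ∃ c : ℕ → ℕ, Computable c ∧ (∀ x, c x < 4) ∧ ∀ x y, Adj x y → c x ≠ c y := by
  classical
  have hL := L_comp hnb
  have hex : ∀ x, ∃ n, x ∈ L nb n := fun x => ⟨x + 1, (mem_L_succ nb x x).2 (Or.inl rfl)⟩
  let lev : ℕ → ℕ := fun x => Nat.find (hex x)
  have hlev : ∀ x n, lev x = n ↔ x ∈ L nb n ∧ ∀ k < n, x ∉ L nb k :=
    fun x n => Nat.find_eq_iff (hex x)
  have hlevC : Computable lev := by
    apply RE.computable_of_graph
    have h1 : Computable fun x : ℕ × ℕ => L nb x.2 :=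
      hL.comp (g := fun x : ℕ × ℕ => x.2) (by fun_prop)
    have h2 : REPred fun x : ℕ × ℕ => x.1 ∈ L nb x.2 ∧ ∀ k < x.2, x.1 ∉ L nb k := by
      refine RE.and (RE.mem_list (by fun_prop) h1) (RE.all_lt (p := fun (x : ℕ × ℕ) k =>
        x.1 ∉ L nb k) (f := fun x : ℕ × ℕ => x.2) ?_ (by fun_prop))
      exact RE.not_mem_list (by fun_prop)
        (hL.comp (g := fun x : (ℕ × ℕ) × ℕ => x.2) (by fun_prop))
    exact h2.of_eq fun x => (hlev x.1 x.2).symm
  have hstep : ∀ x y, Adj x y → lev y ≤ lev x + 1 := by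
    intro x y h
    apply Nat.find_min'
    rw [mem_L_succ]
    exact Or.inr (Or.inr ⟨x, ((hlev x _).1 rfl).1, (hadj x y).2 h⟩)
  -- the colours of the layers
  let r : ℕ → ℕ → Prop := fun n m => ∀ x ∈ L nb n, ∀ y ∈ nb x, m.testBit x ≠ m.testBit y
  have hr : REPred fun z : ℕ × ℕ => r z.1 z.2 := by
    refine RE.all_mem (p := fun (z : ℕ × ℕ) x => ∀ y ∈ nb x, z.2.testBit x ≠ z.2.testBit y)
      (l := fun z : ℕ × ℕ => L nb z.1) ?_ (hL.comp (g := fun x : ℕ × ℕ => x.1) (by fun_prop))
    refine RE.all_mem (p := fun (z : (ℕ × ℕ) × ℕ) y => z.1.2.testBit z.2 ≠ z.1.2.testBit y)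
      (l := fun z : (ℕ × ℕ) × ℕ => nb z.2) ?_
      (hnb.comp (g := fun x : (ℕ × ℕ) × ℕ => x.2) (by fun_prop))
    exact RE.ne (testBit_comp (by fun_prop) (by fun_prop)) (testBit_comp (by fun_prop)
      (by fun_prop))
  have hrex : ∀ n, ∃ m, r n m := by
    intro n
    obtain ⟨N, hN⟩ : ∃ N, ∀ x ∈ L nb n, x < N ∧ ∀ y ∈ nb x, y < N := by
      have key : ∀ l : List ℕ, ∃ N, ∀ x ∈ l, x < N ∧ ∀ y ∈ nb x, y < N := by
        intro l
        induction l with
        | nil => exact ⟨0, fun x hx => by simp at hx⟩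
        | cons a l ih =>
          obtain ⟨N, hN⟩ := ih
          refine ⟨max N (max (a + 1) ((nb a).sum + 1)), fun x hx => ?_⟩
          rcases List.mem_cons.1 hx with rfl | hx
          · refine ⟨by omega, fun y hy => ?_⟩
            have := List.single_le_sum (fun _ _ => Nat.zero_le _) y hy
            omega
          · refine ⟨by have := (hN x hx).1; omega, fun y hy => ?_⟩
            have := (hN x hx).2 y hy
            omega
      exact key _
    obtain ⟨m, hm⟩ := exists_bits C N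
    refine ⟨m, fun x hx y hy => ?_⟩
    rw [hm x (hN x hx).1, hm y ((hN x hx).2 y hy)]
    exact hC x y ((hadj x y).1 hy)
  obtain ⟨f0, hf0, hdom, hval⟩ := RE.uniformize hr
  let f : ℕ → ℕ := fun n => (f0 n).get ((hdom n).2 (hrex n))
  have hf : Computable f := hf0.of_eq_tot fun n => Part.get_mem _
  have hfr : ∀ n, r n (f n) := fun n => hval n _ (Part.get_mem _)
  refine ⟨fun x => 2 * (lev x % 2) + (bif (f (lev x)).testBit x then 1 else 0), ?_, ?_, ?_⟩
  · have h1 : Computable fun x => (f (lev x)).testBit x :=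
      testBit_comp (hf.comp hlevC) Computable.id
    have h2 : Computable fun x => lev x % 2 :=
      Primrec.nat_mod.to_comp.comp hlevC (Computable.const 2)
    exact RE.cadd (RE.cmul (by fun_prop) h2) (RE.ccond h1 (by fun_prop) (by fun_prop))
  · intro x
    have : lev x % 2 < 2 := Nat.mod_lt _ (by norm_num)
    rcases hb1 : (f (lev x)).testBit x with _ | _ <;> simp only [hb1, cond_true, cond_false] <;>
      omega
  · intro x y h heq
    have h1 := hstep x y h
    have h2 := hstep y x (hsymm x y h)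
    have h3 : lev x = lev y := by
      rcases hb1 : (f (lev x)).testBit x with _ | _ <;> rcases hb2 : (f (lev y)).testBit y with _ | _ <;>
        simp only [hb1, hb2, cond_true, cond_false] at heq <;> omega
    have h4 := hfr (lev x) x ((hlev x _).1 rfl).1 y ((hadj x y).2 h)
    simp only [← h3] at heq
    rcases hb1 : (f (lev x)).testBit x with _ | _ <;> rcases hb2 : (f (lev x)).testBit y with _ | _ <;>
      simp only [hb1, hb2, cond_true, cond_false] at heq h4
    · exact h4 rfl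
    · omega
    · omega
    · exact h4 rfl

end Pool.Agent.TH744.Gas
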