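import Pool.Agent.Results.MP_81a968_lc.LowIsoGeneric
import Pool.Agent.Helper446.Oracle

/-! A 1-generic set computable in the halting problem, and the fact that functions computable from
a 1-generic set whose correctness is co-c.e. are computable. -/

set_option autoImplicit false

namespace Pool.Agent.TH744.Gas

open Nat.Partrec (Code)
open Nat.Partrec.Code
open Pool.Agent.Results.MP_81a968_lc.LowIsoGeneric
open Pool.Agent.Helper446 Pool.Agent.Helper446.Oracle

/-- the sequence of decided strings, relative to an extension operator -/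
def bs (φ : Op) (j : ℕ) : List Bool :=
  Nat.rec (motive := fun _ => List Bool) [] (fun i β => dec φ i β ++ [false]) j

theorem bs_succ (φ : Op) (j : ℕ) : bs φ (j + 1) = dec φ j (bs φ j) ++ [false] := rfl

theorem bs_ext {φ : Op} (j : ℕ) : dec φ j (bs φ j) <+: bs φ (j + 1) := by
  rw [bs_succ]; exact List.prefix_append _ _

theorem bs_mono {φ : Op} (h : IsExt φ) {i j : ℕ} (hij : i ≤ j) : bs φ i <+: bs φ j := by
  induction j with
  | zero => rw [Nat.le_zero.1 hij]
  | succ j ih =>
    rcases Nat.lt_or_eq_of_le hij with h' | rfl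
    · exact (ih (Nat.lt_succ_iff.1 h')).trans ((dec_ext h j _).trans (bs_ext j))
    · exact List.prefix_rfl

theorem bs_length {φ : Op} (h : IsExt φ) (j : ℕ) : j ≤ (bs φ j).length := by
  induction j with
  | zero => exact Nat.zero_le _
  | succ j ih =>
    rw [bs_succ, List.length_append, List.length_singleton]
    exact Nat.succ_le_succ (ih.trans (dec_ext h j _).length_le)

theorem bs_ev (j : ℕ) : ∀ᶠ t in Filter.atTop, bs (find t) j = bs finf j := by
  induction j with
  | zero => exact Filter.Eventually.of_forall fun _ => rfl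
  | succ j ih =>
    filter_upwards [ih, dec_ev j (bs finf j)] with t h1 h2
    rw [bs_succ, bs_succ, h1, h2]

theorem bs_comp {α : Type} [Primcodable α] {t j : α → ℕ} (ht : Computable t)
    (hj : Computable j) : Computable fun a => bs (find (t a)) (j a) := by
  have h1 : Computable₂ fun (a : α) (p : ℕ × List Bool) =>
      dec (find (t a)) p.1 p.2 ++ [false] :=
    (Computable.list_append.comp (dec_comp (ht.comp Computable.fst)
      (Computable.fst.comp Computable.snd) (Computable.snd.comp Computable.snd))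
      (Computable.const [false])).to₂
  exact (Computable.nat_rec hj (Computable.const []) h1).of_eq fun a => rfl

/-- the generic set -/
noncomputable def X (n : ℕ) : Bool := (bs finf (n + 1)).getD n false

theorem ini_bs (j : ℕ) : Ini X (bs finf j) := by
  intro n hn
  have h1 : n < (bs finf (n + 1)).length := bs_length finf_ext (n + 1)
  have e : X n = (bs finf (n + 1)).getD n false := rfl
  have key : (bs finf j)[n]? = (bs finf (n + 1))[n]? := by
    rcases Nat.le_total j (n + 1) with h | h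
    · obtain ⟨ρ, hρ⟩ := bs_mono finf_ext h
      rw [← hρ, List.getElem?_append_left hn]
    · obtain ⟨ρ, hρ⟩ := bs_mono finf_ext h
      rw [← hρ, List.getElem?_append_left h1]
  rw [key, e, List.getD_eq_getElem?_getD, List.getElem?_eq_getElem h1]
  rfl

theorem X_generic : OneGeneric X := by
  intro W hW
  have hW' : REPred fun a : ℕ × List Bool => a.2 ∈ W := Partrec.comp hW Computable.snd
  obtain ⟨j, hj⟩ := re_index hW'
  have hini : Ini X (dec finf j (bs finf j)) :=
    ini_of_prefix (bs_ext j) (ini_bs (j + 1))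
  rcases e : finf j 0 (bs finf j) with _ | τ
  · right
    refine ⟨(bs finf j).length, fun τ hτ hpre => ?_⟩
    rw [ini_seg (ini_bs j)] at hpre
    exact finf_none e τ hpre ((hj 0 τ).2 hτ)
  · left
    have hd : dec finf j (bs finf j) = τ := by unfold dec; rw [e]; rfl
    rw [hd] at hini
    exact ⟨τ.length, by rw [ini_seg hini]; exact (hj 0 τ).1 (finf_mem e)⟩

/-- the halting set -/
def K : Set ℕ := {n | ((Denumerable.ofNat Code n).eval n).Dom}

/-- a reduction of a c.e. predicate to the halting set -/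
theorem exists_red {p : ℕ → Prop} (hp : REPred p) :
    ∃ h : ℕ → ℕ, Computable h ∧ ∀ z, h z ∈ K ↔ p z := by
  have h1 : Partrec fun w : ℕ => (Part.assert (p w.unpair.1) fun _ => Part.some (0 : ℕ)) := by
    have h2 : REPred fun w : ℕ => p w.unpair.1 := RE.comp hp (by fun_prop)
    refine (Partrec.map h2 (Computable.const (0 : ℕ)).to₂).of_eq fun a => ?_
    apply Part.ext
    intro y
    simp only [Part.mem_map_iff, Part.mem_assert_iff, Part.mem_some_iff]
    exact ⟨fun ⟨_, ⟨h, _⟩, e⟩ => ⟨h, e.symm⟩, fun ⟨h, e⟩ => ⟨(), ⟨h, trivial⟩, e.symm⟩⟩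
  obtain ⟨c, hc⟩ := exists_code.1 (Partrec.nat_iff.1 h1)
  refine ⟨fun z => Encodable.encode (curry c z), ?_, fun z => ?_⟩
  · exact Computable.encode.comp ((primrec₂_curry.comp (Primrec.const c) Primrec.id).to_comp)
  · show ((Denumerable.ofNat Code (Encodable.encode (curry c z))).eval _).Dom ↔ _
    rw [Denumerable.ofNat_encode, eval_curry, hc]
    simp [Part.assert]

/-- the limit lemma -/
theorem reIn_of_lim {g : ℕ → ℕ → ℕ} (hg : Computable₂ g) {f : ℕ → ℕ}
    (h : ∀ x, ∃ s0, ∀ s, s0 ≤ s → g x s = f x) : REIn K fun p : ℕ × ℕ => f p.1 = p.2 := by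
  have hp : REPred fun z : ℕ => ∃ s, z.unpair.2 ≤ s ∧ g z.unpair.1 s ≠ g z.unpair.1 z.unpair.2 := by
    have hg' : Computable fun q : ℕ × ℕ => g q.1 q.2 := hg
    refine RE.ex (RE.and (RE.le (by fun_prop) (by fun_prop)) (RE.ne ?_ ?_))
    · exact hg'.comp (g := fun x : ℕ × ℕ => (x.1.unpair.1, x.2)) (by fun_prop)
    · exact hg'.comp (g := fun x : ℕ × ℕ => (x.1.unpair.1, x.1.unpair.2)) (by fun_prop)
  obtain ⟨r, hr, hrK⟩ := exists_red hp
  have hg' : Computable fun q : ℕ × ℕ => g q.1 q.2 := hg
  have h1 : REIn K fun p : ℕ × ℕ => ∃ s, g p.1 s = p.2 ∧ r (Nat.pair p.1 s) ∉ K := by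
    refine REIn.ex (S := fun (p : ℕ × ℕ) s => g p.1 s = p.2 ∧ r (Nat.pair p.1 s) ∉ K)
      (REIn.and (REIn.of_re ?_) (REIn.not_mem ?_))
    · refine RE.eq ?_ (by fun_prop)
      exact hg'.comp (g := fun x : (ℕ × ℕ) × ℕ => (x.1.1, x.2)) (by fun_prop)
    · exact hr.comp (g := fun x : (ℕ × ℕ) × ℕ => Nat.pair x.1.1 x.2) (by fun_prop)
  refine h1.of_eq fun p => ?_
  obtain ⟨s0, hs0⟩ := h p.1
  constructor
  · rintro ⟨s, h2, h3⟩
    rw [hrK] at h3
    simp only [Nat.unpair_pair, not_exists, not_and, not_not] at h3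
    rw [← h2, ← h3 (max s s0) (le_max_left _ _)]
    exact (hs0 _ (le_max_right _ _)).symm
  · intro h2
    refine ⟨s0, (hs0 s0 le_rfl).trans h2, ?_⟩
    rw [hrK]
    simp only [Nat.unpair_pair, not_exists, not_and, not_not]
    intro s hs
    rw [hs0 s hs, hs0 s0 le_rfl]

/-- the generic set as a set of natural numbers -/
def XS : Set ℕ := {n | X n = true}

theorem X_lim : REIn K fun p : ℕ × ℕ => (bif X p.1 then 1 else 0) = p.2 := by
  have h1 : Computable fun q : ℕ × ℕ => (bs (find q.2) (q.1 + 1)).getD q.1 false := by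
    have h2 : Computable fun q : ℕ × ℕ => bs (find q.2) (q.1 + 1) :=
      bs_comp (by fun_prop) (by fun_prop)
    exact (Primrec.list_getD false).to_comp.comp h2 Computable.fst
  refine reIn_of_lim (g := fun n t => bif (bs (find t) (n + 1)).getD n false then 1 else 0)
    (f := fun n => bif X n then 1 else 0) ?_ ?_
  · exact Computable.cond h1 (Computable.const 1) (Computable.const 0)
  · intro n
    obtain ⟨t0, h0⟩ := Filter.eventually_atTop.1 (bs_ev (n + 1))
    exact ⟨t0, fun t ht => by rw [h0 t ht]; rfl⟩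

/-- The finite information `c` is confirmed by the string `σ`. -/
def OkS (σ : List Bool) (c : List ℕ × List ℕ) : Prop :=
  (∀ x ∈ c.1, σ[x]? = some true) ∧ ∀ x ∈ c.2, σ[x]? = some false

theorem OkS.mono {σ τ : List Bool} {c : List ℕ × List ℕ} (h : σ <+: τ) (hσ : OkS σ c) :
    OkS τ c := by
  obtain ⟨ρ, rfl⟩ := h
  have key : ∀ (x : ℕ) (b : Bool), σ[x]? = some b → (σ ++ ρ)[x]? = some b := by
    intro x b hx
    obtain ⟨hlt, _⟩ := List.getElem?_eq_some_iff.1 hx
    rw [List.getElem?_append_left hlt]; exact hx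
  exact ⟨fun x hx => key x _ (hσ.1 x hx), fun x hx => key x _ (hσ.2 x hx)⟩

theorem exists_okS {c : List ℕ × List ℕ} (h : Ok XS c) : ∃ n, OkS (seg X n) c := by
  have key : ∀ l : List ℕ, ∃ n, ∀ x ∈ l, x < n := by
    intro l
    refine ⟨l.foldr max 0 + 1, ?_⟩
    intro x hx
    induction l with
    | nil => simp at hx
    | cons a l ih =>
      rcases List.mem_cons.1 hx with rfl | hx
      · simp
      · have := ih hx
        simp at this ⊢; omega
  obtain ⟨n1, h1⟩ := key c.1
  obtain ⟨n2, h2⟩ := key c.2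
  refine ⟨max n1 n2, fun x hx => ?_, fun x hx => ?_⟩
  · rw [seg_get X (lt_of_lt_of_le (h1 x hx) (le_max_left _ _))]
    exact congrArg some (h.1 x hx)
  · rw [seg_get X (lt_of_lt_of_le (h2 x hx) (le_max_right _ _))]
    have := h.2 x hx
    have h3 : X x = false := by
      have h4 : ¬ (X x = true) := this
      simpa using h4
    rw [h3]

theorem ok_of_okS {c : List ℕ × List ℕ} {n : ℕ} (h : OkS (seg X n) c) : Ok XS c := by
  have key : ∀ (x : ℕ) (b : Bool), (seg X n)[x]? = some b → X x = b := by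
    intro x b hx
    obtain ⟨hlt, _⟩ := List.getElem?_eq_some_iff.1 hx
    rw [seg_length] at hlt
    rw [seg_get X hlt] at hx
    exact Option.some.inj hx
  refine ⟨fun x hx => key x _ (h.1 x hx), fun x hx => ?_⟩
  have := key x _ (h.2 x hx)
  show ¬ (X x = true)
  rw [this]; simp

theorem re_okS {α : Type} [Primcodable α] {σ : α → List Bool} {c : α → List ℕ × List ℕ}
    (hσ : Computable σ) (hc : Computable c) : REPred fun a => OkS (σ a) (c a) := by
  refine RE.and ?_ ?_
  · refine RE.all_mem (p := fun a x => (σ a)[x]? = some true) (l := fun a => (c a).1) ?_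
      (by fun_prop)
    exact RE.eq (RE.cgetElem (by fun_prop) (by fun_prop)) (by fun_prop)
  · refine RE.all_mem (p := fun a x => (σ a)[x]? = some false) (l := fun a => (c a).2) ?_
      (by fun_prop)
    exact RE.eq (RE.cgetElem (by fun_prop) (by fun_prop)) (by fun_prop)

/-- If a function computable from the 1-generic never takes a value from a c.e. set of wrong
values, then there is a computable function with the same property. -/
theorem computable_of_generic {g : ℕ → ℕ} (hg : REIn XS fun p : ℕ × ℕ => g p.1 = p.2)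
    {B : ℕ × ℕ → Prop} (hB : REPred B) (hBg : ∀ x, ¬ B (x, g x)) :
    ∃ f : ℕ → ℕ, Computable f ∧ ∀ x, ¬ B (x, f x) := by
  obtain ⟨R, hR, hRg⟩ := hg
  have hW : REPred fun σ : List Bool => σ ∈ {σ : List Bool | ∃ z : (ℕ × ℕ) × (List ℕ × List ℕ),
      R z.1 z.2 ∧ OkS σ z.2 ∧ B z.1} := by
    refine RE.ex (RE.and (RE.comp hR (f := fun x : List Bool × ((ℕ × ℕ) × (List ℕ × List ℕ)) =>
      x.2) (by fun_prop)) (RE.and (re_okS (by fun_prop) (by fun_prop)) (RE.comp hB
        (f := fun x : List Bool × ((ℕ × ℕ) × (List ℕ × List ℕ)) => x.2.1) (by fun_prop))))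
  rcases X_generic _ hW with ⟨n, ⟨z, h1, h2, h3⟩⟩ | ⟨n, hn⟩
  · have h4 := (hRg z.1).2 ⟨z.2, h1, ok_of_okS h2⟩
    have h5 : z.1 = (z.1.1, g z.1.1) := by rw [h4]
    rw [h5] at h3
    exact absurd h3 (hBg _)
  · let r : ℕ → ℕ → Prop := fun x y => ∃ z : (List Bool × (List ℕ × List ℕ)),
        R (x, y) z.2 ∧ OkS (seg X n ++ z.1) z.2
    have hr : REPred fun p : ℕ × ℕ => r p.1 p.2 := by
      refine RE.ex (RE.and (RE.comp hR (f := fun x : (ℕ × ℕ) × (List Bool × (List ℕ × List ℕ)) =>
        ((x.1.1, x.1.2), x.2.2)) (by fun_prop)) (re_okS ?_ (by fun_prop)))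
      have : Computable fun x : (ℕ × ℕ) × (List Bool × (List ℕ × List ℕ)) => x.2.1 := by fun_prop
      exact Computable.list_append.comp (Computable.const _) this
    have hex : ∀ x, ∃ y, r x y := by
      intro x
      obtain ⟨c, h5, h6⟩ := (hRg (x, g x)).1 rfl
      obtain ⟨m, hm⟩ := exists_okS h6
      have h7 : OkS (seg X (max n m)) c := hm.mono (seg_mono X (le_max_right _ _))
      obtain ⟨ρ, hρ⟩ := seg_mono X (le_max_left n m)
      exact ⟨g x, (ρ, c), h5, by rw [hρ]; exact h7⟩
    obtain ⟨f0, hf0, hdom, hval⟩ := RE.uniformize hr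
    refine ⟨fun x => (f0 x).get ((hdom x).2 (hex x)), hf0.of_eq_tot fun n => Part.get_mem _, ?_⟩
    intro x hB'
    obtain ⟨z, h5, h6⟩ := hval x _ (Part.get_mem ((hdom x).2 (hex x)))
    exact hn _ ⟨(_, z.2), h5, h6, hB'⟩ (List.prefix_append _ _)

theorem XS_not_computable : ¬ ComputablePred (fun n : ℕ => n ∈ XS) := by
  intro hc
  obtain ⟨b, hb, hb2⟩ := ComputablePred.computable_iff.1 hc
  apply not_computable_of_generic X_generic
  refine hb.of_eq fun n => ?_
  have h1 : (n ∈ XS) = (b n = true) := congrFun hb2 n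
  have h2 : (X n = true) = (b n = true) := h1
  rw [Bool.eq_iff_iff]
  exact (iff_of_eq h2).symm

open Classical in
theorem XS_le_K : TuringReducible (fun n : ℕ => Part.some (if n ∈ XS then (1 : ℕ) else 0))
    (fun n : ℕ => Part.some
      (if ((Denumerable.ofNat Nat.Partrec.Code n).eval n).Dom then (1 : ℕ) else 0)) := by
  have h1 : REIn K fun p : ℕ × ℕ => (fun n => if n ∈ XS then (1 : ℕ) else 0) p.1 = p.2 := by
    refine X_lim.of_eq fun p => ?_
    have h2 : (p.1 ∈ XS) = (X p.1 = true) := rfl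
    rcases hx : X p.1 with _ | _ <;> simp [h2, hx]
  exact turingReducible_fun_iff.2 h1

end Pool.Agent.TH744.Gas
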